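import Pool.Agent.ThueMorse.Tables

set_option autoImplicit false

namespace Pool.Agent.ThueMorse

/-- winning position -/
def W (k D : ℕ) (q : ℕ → ℕ) (p : ℕ) : Prop :=
  ∃ c < 2 ^ k, ∀ X : ℕ, ∃ i ≤ 5,
    tb (2 ^ k * X + c + i * D + q i) ≠ xor (p.testBit i) (tb (2 ^ k * X + c))

theorem W_step {k D b bc p p' : ℕ} {q q' : ℕ → ℕ} (hbc : bc < 2)
    (hq : ∀ i ≤ 5, q' i = (bc + i * b + q i) / 2)
    (hp : ∀ i ≤ 5, p'.testBit i =
      xor (p.testBit i) (xor (((bc + i * b + q i) % 2) == 1) (bc == 1)))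
    (h : W k D q' p') : W (k + 1) (2 * D + b) q p := by
  obtain ⟨c, hc, h⟩ := h
  refine ⟨2 * c + bc, by rw [pow_succ]; omega, ?_⟩
  intro X
  obtain ⟨i, hi, hne⟩ := h X
  refine ⟨i, hi, ?_⟩
  have h1 : 2 ^ (k + 1) * X + (2 * c + bc) + i * (2 * D + b) + q i =
      2 * (2 ^ k * X + c + i * D + q' i) + (bc + i * b + q i) % 2 := by
    rw [hq i hi, pow_succ]
    have h2 := Nat.div_add_mod (bc + i * b + q i) 2
    have h3 : 2 ^ k * 2 * X = 2 * (2 ^ k * X) := by ring
    have h4 : i * (2 * D + b) = 2 * (i * D) + i * b := by ring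
    omega
  have h2 : 2 ^ (k + 1) * X + (2 * c + bc) = 2 * (2 ^ k * X + c) + bc := by
    rw [pow_succ]; ring
  rw [h1, h2, tb_bit _ _ (Nat.mod_lt _ (by norm_num)), tb_bit _ _ hbc]
  rw [hp i hi] at hne
  revert hne
  cases tb (2 ^ k * X + c + i * D + q' i) <;> cases tb (2 ^ k * X + c) <;>
    cases p.testBit i <;> cases ((bc + i * b + q i) % 2 == 1) <;> cases (bc == 1) <;> simp

/-- all positions of the class `z` are winning -/
def Good (k D z : ℕ) : Prop :=
  ∀ a < 24, ∀ p < 64, (Zt z a).testBit p = true → W k D (Q a) p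

theorem next_spec {a b c : ℕ} (ha : a < 24) (hb : b < 2) (hc : c < 2) :
    nxt.getD (4 * a + 2 * b + c) 0 < 24 ∧ flt.getD (4 * a + 2 * b + c) 0 < 64 ∧
    ∀ i ≤ 5, (Q (nxt.getD (4 * a + 2 * b + c) 0) i = (c + i * b + Q a i) / 2) ∧
      ((flt.getD (4 * a + 2 * b + c) 0).testBit i = xor (((c + i * b + Q a i) % 2) == 1) (c == 1)) := by
  have h := chkNext_true
  unfold chkNext at h
  simp only [List.all_eq_true, List.mem_range, Bool.and_eq_true, decide_eq_true_eq, beq_iff_eq] at h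
  obtain ⟨⟨h1, h2⟩, h3⟩ := h a ha b hb c hc
  exact ⟨h1, h2, fun i hi => h3 i (by omega)⟩

theorem step_aux {k D z a b c p : ℕ} (hb : b < 2) (ha : a < 24) (hc : c < 2) (hp : p < 64)
    (hg : Good k D z)
    (h : (Zt z (nxt.getD (4 * a + 2 * b + c) 0)).testBit (p ^^^ flt.getD (4 * a + 2 * b + c) 0)
      = true) : W (k + 1) (2 * D + b) (Q a) p := by
  obtain ⟨h1, h2, h3⟩ := next_spec ha hb hc
  have h4 : p ^^^ flt.getD (4 * a + 2 * b + c) 0 < 64 := by
    have := Nat.xor_lt_two_pow (n := 6) hp h2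
    exact this
  exact W_step hc (fun i hi => (h3 i hi).1) (fun i hi => by
    rw [Nat.testBit_xor, (h3 i hi).2]) (hg _ h1 _ h4 h)

theorem good_step {k D z b : ℕ} (hz : z < 17) (hb : b < 2) (h : Good k D z) :
    Good (k + 1) (2 * D + b) (dlt.getD (2 * z + b) 0) := by
  intro a ha p hp hbit
  have hc := chkStep_true
  unfold chkStep at hc
  simp only [List.all_eq_true, List.mem_range, Bool.or_eq_true, Bool.not_eq_true',
    ] at hc
  rcases hc z hz b hb a ha p hp with (h1 | h1) | h1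
  · rw [hbit] at h1; exact absurd h1 (by simp)
  · exact step_aux hb ha (by norm_num) hp h h1
  · exact step_aux hb ha (by norm_num) hp h h1

theorem tv_false_spec : ∀ v < 16, tb v = tmask.testBit v := by decide +kernel

theorem tv_spec (Z v : ℕ) (hv : v < 32) :
    tb (16 * Z + v) = xor (tb Z) (tv (xor (tb Z) (tb (Z + 1))) v) := by
  unfold tv
  split_ifs with h
  · have := tb_mul_pow 4 Z v (by omega)
    norm_num at this
    rw [this, tv_false_spec v h]
  · have := tb_mul_pow 4 (Z + 1) (v - 16) (by omega)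
    norm_num at this
    have h2 : 16 * Z + v = 16 * (Z + 1) + (v - 16) := by omega
    rw [h2, this, tv_false_spec (v - 16) (by omega)]
    cases tb Z <;> cases tb (Z + 1) <;> cases tmask.testBit (v - 16) <;> rfl

theorem good_base : Good 0 1 0 := by
  intro a ha p hp hbit
  refine ⟨0, by norm_num, ?_⟩
  intro X
  by_contra hcon
  push Not at hcon
  have hc := chkBase_true
  unfold chkBase at hc
  simp only [List.all_eq_true, List.mem_range, Bool.and_eq_true, decide_eq_true_eq, beq_iff_eq,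
    Bool.not_eq_true'] at hc
  have hX : X = 16 * (X / 16) + X % 16 := by omega
  have hy : X % 16 < 16 := Nat.mod_lt _ (by norm_num)
  generalize hZ : X / 16 = Z at hX
  generalize hY : X % 16 = y at hX hy
  obtain ⟨⟨h1, h2⟩, h3⟩ := hc a ha y hy (xor (tb Z) (tb (Z + 1)))
    (by cases (xor (tb Z) (tb (Z + 1))) <;> simp)
  have key : p = bad a y (xor (tb Z) (tb (Z + 1))) := by
    apply Nat.eq_of_testBit_eq
    intro i
    rcases Nat.lt_or_ge i 6 with hi | hi
    · obtain ⟨h4, h5⟩ := h1 i hi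
      rw [h4]
      have h6 := hcon i (by omega)
      rw [hX] at h6
      have e1 : 2 ^ 0 * (16 * Z + y) + 0 + i * 1 + Q a i = 16 * Z + (y + i + Q a i) := by ring
      have e2 : 2 ^ 0 * (16 * Z + y) + 0 = 16 * Z + y := by ring
      rw [e1, e2, tv_spec Z _ h5, tv_spec Z y (by omega)] at h6
      revert h6
      generalize tv (xor (tb Z) (tb (Z + 1))) (y + i + Q a i) = A1
      generalize tv (xor (tb Z) (tb (Z + 1))) y = A2
      cases tb Z <;> cases p.testBit i <;> cases A1 <;> cases A2 <;> simp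
    · rw [Nat.testBit_lt_two_pow (lt_of_lt_of_le hp (by
          calc 64 = 2 ^ 6 := by norm_num
            _ ≤ 2 ^ i := Nat.pow_le_pow_right (by norm_num) hi)),
        Nat.testBit_lt_two_pow (lt_of_lt_of_le h2 (by
          calc 64 = 2 ^ 6 := by norm_num
            _ ≤ 2 ^ i := Nat.pow_le_pow_right (by norm_num) hi))]
  rw [key] at hbit
  rw [hbit] at h3
  exact absurd h3 (by simp)

theorem seen_spec : ((0, 1, 1) ∈ seen) ∧
    (∀ t ∈ seen, t.1 < 17 ∧ ∀ b < 2,
      (dlt.getD (2 * t.1 + b) 0, (if t.2.1 = 1 ∧ b = 1 then 1 else 0), b) ∈ seen) ∧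
    (∀ t ∈ seen, t.2.2 = 1 → t.2.1 ≠ 1 → (Zt t.1 0).testBit 0 = true) := by
  have h := chkSeen_true
  unfold chkSeen at h
  simp only [List.all_eq_true, List.mem_range, Bool.and_eq_true, decide_eq_true_eq, beq_iff_eq,
    Bool.not_eq_true', List.contains_iff_mem, Bool.or_eq_true] at h
  obtain ⟨⟨h1, h2⟩, h3⟩ := h
  refine ⟨h1, h2, ?_⟩
  intro t ht h4 h5
  rcases h3 t ht with (h6 | h6) | h6
  · simp [h4] at h6
  · exact absurd h6 h5
  · exact h6

theorem track (k : ℕ) : ∀ d, 2 ^ k ≤ d → d < 2 ^ (k + 1) →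
    ∃ t ∈ seen, Good k d t.1 ∧ t.2.2 = d % 2 ∧ (t.2.1 = 1 → d + 1 = 2 ^ (k + 1)) := by
  induction k with
  | zero =>
    intro d h1 h2
    have : d = 1 := by
      norm_num at h1 h2
      omega
    subst this
    exact ⟨(0, 1, 1), seen_spec.1, good_base, rfl, fun _ => by norm_num⟩
  | succ k ih =>
    intro d h1 h2
    have e1 : 2 ^ (k + 1 + 1) = 2 * 2 ^ (k + 1) := by ring
    have e2 : 2 ^ (k + 1) = 2 * 2 ^ k := by ring
    obtain ⟨t, ht, hg, ho, hs⟩ := ih (d / 2) (by omega) (by omega)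
    obtain ⟨hz, hcl⟩ := seen_spec.2.1 t ht
    refine ⟨_, hcl (d % 2) (Nat.mod_lt _ (by norm_num)), ?_, rfl, ?_⟩
    · have := good_step hz (b := d % 2) (Nat.mod_lt _ (by norm_num)) hg
      rw [Nat.div_add_mod] at this
      exact this
    · intro h
      simp only [ite_eq_left_iff] at h
      have h3 : t.2.1 = 1 ∧ d % 2 = 1 := by
        by_contra hn
        exact absurd (h hn) (by norm_num)
      have := hs h3.1
      omega

theorem block_exists {k d : ℕ} (h1 : 2 ^ k ≤ d) (h2 : d < 2 ^ (k + 1)) (hodd : Odd d)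
    (hne : d + 1 ≠ 2 ^ (k + 1)) :
    ∃ c < 2 ^ k, ∀ X, ∃ i ≤ 5, tb (2 ^ k * X + c + i * d) ≠ tb (2 ^ k * X + c) := by
  obtain ⟨t, ht, hg, ho, hs⟩ := track k d h1 h2
  have h3 : d % 2 = 1 := Nat.odd_iff.mp hodd
  have h4 := seen_spec.2.2 t ht (by rw [ho, h3]) (fun h => hne (hs h))
  obtain ⟨c, hc, h⟩ := hg 0 (by norm_num) 0 (by norm_num) h4
  refine ⟨c, hc, ?_⟩
  intro X
  obtain ⟨i, hi, hne⟩ := h X
  refine ⟨i, hi, ?_⟩
  have hQ : ∀ i ≤ 5, Q 0 i = 0 := by decide
  rw [hQ i hi] at hne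
  simpa using hne

theorem bound_generic {k d : ℕ} (h1 : 2 ^ k ≤ d) (h2 : d < 2 ^ (k + 1)) (hodd : Odd d)
    (hne : d + 1 ≠ 2 ^ (k + 1)) : Bound d (2 ^ k + 4) := by
  obtain ⟨c, hc, h⟩ := block_exists h1 h2 hodd hne
  exact bound_of_block (I := 5) hodd hc h

end Pool.Agent.ThueMorse
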