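import Mathlib

set_option autoImplicit false

namespace Pool.Agent.ThueMorse

/-- the parity of the number of binary ones, as a Boolean -/
def tb (n : ℕ) : Bool := (Nat.digits 2 n).sum.bodd

theorem tb_zero : tb 0 = false := by decide

theorem tb_even (n : ℕ) : tb (2 * n) = tb n := by
  rcases Nat.eq_zero_or_pos n with rfl | h
  · rfl
  · unfold tb
    rw [Nat.digits_def' (by norm_num) (by omega)]
    have h1 : 2 * n % 2 = 0 := by omega
    have h2 : 2 * n / 2 = n := by omega
    rw [h1, h2, List.sum_cons, zero_add]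

theorem tb_odd (n : ℕ) : tb (2 * n + 1) = !tb n := by
  unfold tb
  rw [Nat.digits_def' (by norm_num) (by omega)]
  have h1 : (2 * n + 1) % 2 = 1 := by omega
  have h2 : (2 * n + 1) / 2 = n := by omega
  rw [h1, h2, List.sum_cons, Nat.bodd_add]
  simp

theorem tb_div (n : ℕ) : tb n = xor (tb (n / 2)) n.bodd := by
  rcases Nat.even_or_odd' n with ⟨m, rfl | rfl⟩
  · rw [tb_even]
    have : 2 * m / 2 = m := by omega
    simp [this]
  · rw [tb_odd]
    have : (2 * m + 1) / 2 = m := by omega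
    simp [this]

theorem tb_bit (n b : ℕ) (hb : b < 2) : tb (2 * n + b) = xor (tb n) (b == 1) := by
  interval_cases b
  · simp [tb_even]
  · simp [tb_odd]

theorem tb_mul_pow (K : ℕ) : ∀ (X r : ℕ), r < 2 ^ K → tb (2 ^ K * X + r) = xor (tb X) (tb r) := by
  induction K with
  | zero =>
    intro X r hr
    have : r = 0 := by simpa using hr
    subst this
    simp [tb_zero]
  | succ K ih =>
    intro X r hr
    rw [pow_succ] at hr
    have h1 : 2 ^ (K + 1) * X + r = 2 * (2 ^ K * X + r / 2) + r % 2 := by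
      rw [pow_succ]
      have := Nat.div_add_mod r 2
      have h3 : 2 ^ K * 2 * X = 2 * (2 ^ K * X) := by ring
      omega
    have h2 : r = 2 * (r / 2) + r % 2 := by omega
    rw [h1, tb_bit _ _ (by omega), ih X (r / 2) (by omega)]
    conv_rhs => rw [h2, tb_bit _ _ (by omega : r % 2 < 2)]
    rw [Bool.xor_assoc]

theorem tb_compl (K : ℕ) : ∀ a : ℕ, a < 2 ^ K → tb (2 ^ K - 1 - a) = xor (tb a) K.bodd := by
  induction K with
  | zero =>
    intro a ha
    have : a = 0 := by simpa using ha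
    subst this
    rfl
  | succ K ih =>
    intro a ha
    rw [pow_succ] at ha
    have h0 : 0 < 2 ^ K := by positivity
    have h1 : 2 ^ (K + 1) - 1 - a = 2 * (2 ^ K - 1 - a / 2) + (1 - a % 2) := by
      rw [pow_succ]
      omega
    have h2 : a = 2 * (a / 2) + a % 2 := by omega
    rw [h1, tb_bit _ _ (by omega), ih (a / 2) (by omega)]
    conv_rhs => rw [h2, tb_bit _ _ (by omega : a % 2 < 2)]
    have h3 : a % 2 = 0 ∨ a % 2 = 1 := by omega
    rcases h3 with h3 | h3 <;> rw [h3] <;> simp [Nat.bodd_succ]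

/-- `2^K - 1` has `K` ones -/
theorem tb_ones (K : ℕ) : tb (2 ^ K - 1) = K.bodd := by
  have := tb_compl K 0 (by positivity)
  simpa [tb_zero] using this

/-- the progression with difference `d` starting at `n` is constant on its first `ℓ` terms -/
def MonoB (n d ℓ : ℕ) : Prop := ∀ j < ℓ, tb (n + j * d) = tb n

/-- no constant progression with difference `d` has more than `B` terms -/
def Bound (d B : ℕ) : Prop := ∀ n ℓ, MonoB n d ℓ → ℓ ≤ B

theorem bound_mono {d B C : ℕ} (h : Bound d B) (hBC : B ≤ C) : Bound d C :=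
  fun n ℓ hm => (h n ℓ hm).trans hBC

theorem bound_double {d B : ℕ} (h : Bound d B) : Bound (2 * d) B := by
  intro n ℓ hm
  apply h (n / 2) ℓ
  intro j hj
  have h1 := hm j hj
  have h2 : n + j * (2 * d) = 2 * (n / 2 + j * d) + n % 2 := by
    have h3 : j * (2 * d) = 2 * (j * d) := by ring
    omega
  have h4 : n = 2 * (n / 2) + n % 2 := by omega
  rw [h2, tb_bit _ _ (by omega)] at h1
  conv_rhs at h1 => rw [h4, tb_bit _ _ (by omega : n % 2 < 2)]
  revert h1
  cases tb (n / 2 + j * d) <;> cases tb (n / 2) <;> cases (n % 2 == 1) <;> simp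

theorem exists_hit {d k c : ℕ} (hd : Odd d) (n : ℕ) (hc : c < 2 ^ k) :
    ∃ j < 2 ^ k, (n + j * d) % 2 ^ k = c := by
  have hcop : Nat.Coprime (2 ^ k) d := Nat.Coprime.pow_left k (Nat.coprime_two_left.mpr hd)
  have : NeZero (2 ^ k) := ⟨by positivity⟩
  let u : (ZMod (2 ^ k))ˣ := ZMod.unitOfCoprime d hcop.symm
  let j : ZMod (2 ^ k) := ((c : ZMod (2 ^ k)) - n) * (u⁻¹ : (ZMod (2 ^ k))ˣ)
  refine ⟨j.val, ZMod.val_lt j, ?_⟩
  have hu : (d : ZMod (2 ^ k)) = (u : ZMod (2 ^ k)) := (ZMod.coe_unitOfCoprime d hcop.symm).symm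
  have h1 : ((n + j.val * d : ℕ) : ZMod (2 ^ k)) = (c : ZMod (2 ^ k)) := by
    push_cast
    rw [ZMod.natCast_zmod_val, hu, show j = ((c : ZMod (2 ^ k)) - n) * (u⁻¹ : (ZMod (2 ^ k))ˣ)
      from rfl, mul_assoc, Units.inv_mul]
    ring
  have h2 := (ZMod.natCast_eq_natCast_iff' _ _ _).mp h1
  rw [h2, Nat.mod_eq_of_lt hc]

theorem bound_of_block {d k c I : ℕ} (hd : Odd d) (hc : c < 2 ^ k)
    (h : ∀ X, ∃ i ≤ I, tb (2 ^ k * X + c + i * d) ≠ tb (2 ^ k * X + c)) :
    Bound d (2 ^ k + I - 1) := by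
  intro n ℓ hm
  by_contra hlt
  have hpos : 0 < 2 ^ k := by positivity
  obtain ⟨j, hj, hjc⟩ := exists_hit hd n hc
  obtain ⟨i, hi, hne⟩ := h ((n + j * d) / 2 ^ k)
  have h1 : 2 ^ k * ((n + j * d) / 2 ^ k) + c = n + j * d := by
    have := Nat.div_add_mod (n + j * d) (2 ^ k)
    rw [hjc] at this
    exact this
  rw [h1] at hne
  apply hne
  have h2 : n + j * d + i * d = n + (j + i) * d := by ring
  rw [h2, hm (j + i) (by omega), hm j (by omega)]

end Pool.Agent.ThueMorse
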