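import Pool.Agent.ThueMorse.Auto

set_option autoImplicit false

namespace Pool.Agent.ThueMorse

theorem odd_ones {K : ℕ} (hK : 1 ≤ K) : Odd (2 ^ K - 1) := by
  obtain ⟨m, rfl⟩ : ∃ m, K = m + 1 := ⟨K - 1, by omega⟩
  have : 0 < 2 ^ m := by positivity
  refine ⟨2 ^ m - 1, ?_⟩
  rw [pow_succ]
  omega

theorem bodd_of_odd {K : ℕ} (h : Odd K) : K.bodd = true := by
  obtain ⟨m, rfl⟩ := h
  rw [Nat.bodd_add, Nat.bodd_mul]
  rfl

theorem bodd_of_even {K : ℕ} (h : Even K) : K.bodd = false := by
  obtain ⟨m, rfl⟩ := h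
  rw [Nat.bodd_add]
  simp

theorem bound_special_odd {K : ℕ} (h : Odd K) : Bound (2 ^ K - 1) (2 ^ K) := by
  have hK : 1 ≤ K := h.pos
  have hpos : 0 < 2 ^ K := by positivity
  have := bound_of_block (k := K) (c := 0) (I := 1) (odd_ones hK) hpos (fun X => ⟨1, le_rfl, by
    rw [one_mul, add_zero, tb_mul_pow K X _ (by omega), tb_ones, bodd_of_odd h]
    have := tb_mul_pow K X 0 hpos
    rw [add_zero, tb_zero] at this
    rw [this]
    cases tb X <;> simp⟩)
  exact this

theorem tb_one : tb 1 = true := by decide +kernel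
theorem tb_two : tb 2 = true := by decide +kernel
theorem tb_three : tb 3 = false := by decide +kernel
theorem tb_four : tb 4 = true := by decide +kernel

theorem bound_special_even {K : ℕ} (h : Even K) (hK : 2 ≤ K) :
    Bound (2 ^ K - 1) (2 ^ K + 4) := by
  have h4 : 4 ≤ 2 ^ K := by
    calc 4 = 2 ^ 2 := by norm_num
      _ ≤ 2 ^ K := Nat.pow_le_pow_right (by norm_num) hK
  apply bound_of_block (k := K) (c := 2) (I := 5) (odd_ones (by omega)) (by omega)
  intro X
  by_contra hcon
  push Not at hcon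
  have b2 : tb (2 ^ K * X + 2) = xor (tb X) true := by
    rw [tb_mul_pow K X 2 (by omega), tb_two]
  have e1 := hcon 1 (by norm_num)
  have e3 := hcon 3 (by norm_num)
  have e4 := hcon 4 (by norm_num)
  have e5 := hcon 5 (by norm_num)
  have e2 := hcon 2 (by norm_num)
  have r1 : 2 ^ K * X + 2 + 1 * (2 ^ K - 1) = 2 ^ K * (X + 1) + 1 := by
    rw [mul_add]; omega
  have r2 : 2 ^ K * X + 2 + 2 * (2 ^ K - 1) = 2 ^ K * (X + 2) + 0 := by
    rw [mul_add]; omega
  have r4 : 2 ^ K * X + 2 + 4 * (2 ^ K - 1) = 2 ^ K * (X + 3) + (2 ^ K - 1 - 1) := by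
    rw [mul_add]; omega
  have r5 : 2 ^ K * X + 2 + 5 * (2 ^ K - 1) = 2 ^ K * (X + 4) + (2 ^ K - 1 - 2) := by
    rw [mul_add]; omega
  rw [r1, b2, tb_mul_pow K _ 1 (by omega), tb_one] at e1
  rw [r4, b2, tb_mul_pow K _ _ (by omega), tb_compl K 1 (by omega), tb_one, bodd_of_even h] at e4
  rw [r5, b2, tb_mul_pow K _ _ (by omega), tb_compl K 2 (by omega), tb_two, bodd_of_even h] at e5
  rcases Nat.even_or_odd' X with ⟨m, rfl | rfl⟩
  · rw [tb_odd, tb_even] at e1
    revert e1
    cases tb m <;> simp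
  · have s3 : 2 * m + 1 + 3 = 2 * (m + 2) := by ring
    have s4 : 2 * m + 1 + 4 = 2 * (m + 2) + 1 := by ring
    rw [s3, tb_even] at e4
    rw [s4, tb_odd] at e5
    revert e4 e5
    cases tb (m + 2) <;> cases tb (2 * m + 1) <;> simp

/-- the long progression for `d = 2^K - 1`, `K` even -/
theorem lower_special {K : ℕ} (h : Even K) (hK : 2 ≤ K) :
    MonoB (3 * 4 ^ K - 2 ^ K + 1) (2 ^ K - 1) (2 ^ K + 4) := by
  have h4 : 4 ≤ 2 ^ K := by
    calc 4 = 2 ^ 2 := by norm_num
      _ ≤ 2 ^ K := Nat.pow_le_pow_right (by norm_num) hK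
  obtain ⟨P, hP⟩ : ∃ P, P = 2 ^ K := ⟨_, rfl⟩
  have hPP : 4 ^ K = P * P := by
    rw [hP, ← mul_pow]
    norm_num
  have h2K : 2 ^ (2 * K) = P * P := by
    rw [hP, ← pow_add]; congr 1; ring
  have hb := bodd_of_even h
  have hPge : 4 ≤ P := by omega
  have hPPge : P ≤ P * P := Nat.le_mul_self P
  have hPP4 : 4 * P ≤ P * P := Nat.mul_le_mul_right P hPge
  -- the pieces
  have key : ∀ X r, r < P * P → tb (P * P * X + r) = xor (tb X) (tb r) := by
    intro X r hr
    have := tb_mul_pow (2 * K) X r (by rw [h2K]; exact hr)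
    rw [h2K] at this
    exact this
  have key1 : ∀ X r, r < P → tb (P * X + r) = xor (tb X) (tb r) := by
    intro X r hr
    have := tb_mul_pow K X r (by omega)
    rw [← hP] at this
    exact this
  have start : tb (3 * (P * P) - P + 1) = false := by
    have e : 3 * (P * P) - P + 1 = P * P * 2 + (P * (P - 1) + 1) := by
      have : P * (P - 1) = P * P - P := by rw [Nat.mul_sub, mul_one]
      omega
    have hlt : P * (P - 1) + 1 < P * P := by
      have : P * (P - 1) = P * P - P := by rw [Nat.mul_sub, mul_one]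
      omega
    rw [e, key 2 _ hlt, key1 _ 1 (by omega), tb_two, tb_one, hP, tb_ones, hb]
    rfl
  have main : ∀ j < P + 4, tb (3 * (P * P) - P + 1 + j * (P - 1)) = false := by
    intro j hj
    rcases Nat.lt_or_ge j 2 with h0 | h0
    · interval_cases j
      · rw [zero_mul, add_zero]; exact start
      · have e : 3 * (P * P) - P + 1 + 1 * (P - 1) = P * P * 3 + 0 := by omega
        rw [e, key 3 0 (by omega), tb_three, tb_zero]
        rfl
    · rcases Nat.lt_or_ge j (P + 2) with h1 | h1
      · -- m = j - 1, 1 ≤ m ≤ P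
        obtain ⟨m, rfl⟩ : ∃ m, j = m + 2 := ⟨j - 2, by omega⟩
        have hm : m < P := by omega
        have e0 : (m + 2) * (P - 1) = (P - 1) + (P * m + (P - 1 - m)) := by
          obtain ⟨P', rfl⟩ : ∃ P', P = P' + 1 := ⟨P - 1, by omega⟩
          have : (P' + 1) - 1 - m = P' - m := by omega
          rw [this]
          have h3 : P' + 1 - 1 = P' := by omega
          rw [h3]
          have h4 : (m + 2) * P' = P' + m * P' + P' := by ring
          have h5 : (P' + 1) * m = m * P' + m := by ring
          rw [h4, h5]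
          omega
        have e : 3 * (P * P) - P + 1 + (m + 2) * (P - 1) = P * P * 3 + (P * m + (P - 1 - m)) := by
          rw [e0]
          omega
        have hlt : P * m + (P - 1 - m) < P * P := by
          have : P * (m + 1) ≤ P * P := Nat.mul_le_mul_left P (by omega)
          have h2 : P * (m + 1) = P * m + P := by ring
          omega
        rw [e, key 3 _ hlt, key1 m _ (by omega), tb_three, hP, tb_compl K m (by omega), hb]
        cases tb m <;> rfl
      · have hj' : j = P + 2 ∨ j = P + 3 := by omega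
        have hsq : P * (P - 1) = P * P - P := by rw [Nat.mul_sub, mul_one]
        rcases hj' with rfl | rfl
        · have e : 3 * (P * P) - P + 1 + (P + 2) * (P - 1) = P * P * 3 + (P * P - 1) := by
            rw [add_mul, hsq]; omega
          rw [e, key 3 _ (by omega), tb_three, ← h2K, tb_ones]
          simp
        · have e : 3 * (P * P) - P + 1 + (P + 3) * (P - 1) = P * P * 4 + (P - 1 - 1) := by
            rw [add_mul, hsq]; omega
          rw [e, key 4 _ (by omega), tb_four, hP, tb_compl K 1 (by omega), tb_one, hb]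
          rfl
  intro j hj
  rw [hPP, ← hP]
  rw [main j (by omega), start]

/-- the special differences -/
def Special (d : ℕ) : Prop := ∃ K, 2 ≤ K ∧ Even K ∧ d = 2 ^ K - 1

theorem bound_of_special {d : ℕ} (h : Special d) : Bound d (d + 5) := by
  obtain ⟨K, hK, he, rfl⟩ := h
  have : 0 < 2 ^ K := by positivity
  exact bound_mono (bound_special_even he hK) (by omega)

theorem mono_of_special {d : ℕ} (h : Special d) : ∃ n, MonoB n d (d + 5) := by
  obtain ⟨K, hK, he, rfl⟩ := h
  have h0 : 0 < 2 ^ K := by positivity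
  refine ⟨3 * 4 ^ K - 2 ^ K + 1, ?_⟩
  have := lower_special he hK
  have e : 2 ^ K - 1 + 5 = 2 ^ K + 4 := by omega
  rw [e]
  exact this

theorem bound_odd_nonspecial {d : ℕ} (hodd : Odd d) (hns : ¬ Special d) : Bound d (d + 4) := by
  have hpos : d ≠ 0 := by
    rintro rfl
    simp at hodd
  have h1 : 2 ^ Nat.log 2 d ≤ d := Nat.pow_log_le_self 2 hpos
  have h2 : d < 2 ^ (Nat.log 2 d + 1) := Nat.lt_pow_succ_log_self (by norm_num) d
  generalize Nat.log 2 d = k at h1 h2
  by_cases hne : d + 1 = 2 ^ (k + 1)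
  · have hd : d = 2 ^ (k + 1) - 1 := by omega
    rcases Nat.even_or_odd (k + 1) with he | ho
    · exfalso
      apply hns
      refine ⟨k + 1, ?_, he, hd⟩
      obtain ⟨m, hm⟩ := he
      omega
    · rw [hd]
      exact bound_mono (bound_special_odd ho) (by omega)
  · exact bound_mono (bound_generic h1 h2 hodd hne) (by omega)

theorem special_odd {d : ℕ} (h : Special d) : Odd d := by
  obtain ⟨K, hK, _, rfl⟩ := h
  exact odd_ones (by omega)

theorem bound_odd {d : ℕ} (hodd : Odd d) : Bound d (d + 5) := by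
  by_cases h : Special d
  · exact bound_of_special h
  · exact bound_mono (bound_odd_nonspecial hodd h) (by omega)

theorem bound_all : ∀ d, 1 ≤ d → Bound d (d + 5) := by
  intro d
  induction d using Nat.strong_induction_on with
  | _ d ih =>
    intro hd
    rcases Nat.even_or_odd' d with ⟨m, rfl | rfl⟩
    · exact bound_mono (bound_double (ih m (by omega) (by omega))) (by omega)
    · exact bound_odd ⟨m, rfl⟩

theorem bound_nonspecial {d : ℕ} (hd : 1 ≤ d) (hns : ¬ Special d) : Bound d (d + 4) := by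
  rcases Nat.even_or_odd' d with ⟨m, rfl | rfl⟩
  · exact bound_mono (bound_double (bound_all m (by omega))) (by omega)
  · exact bound_odd_nonspecial ⟨m, rfl⟩ hns

end Pool.Agent.ThueMorse
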